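import Pool.Agent.Helper96.QT.Def

/-!
# QT7: the double pole

`h y = ∫ k(r) s(y - r) dr`, `k(r) = max r 0 * e^{-r/2}`.
-/

namespace Pool.Agent.QT

open Real Filter Topology MeasureTheory Set DirichletCharacter

private lemma pole_int {b : ℝ} (hb : 0 < b) :
    Integrable (fun r : ℝ => max r 0 * Real.exp (-(b * r))) := by
  have h1 : IntegrableOn (fun r : ℝ => r * Real.exp (-(b * r))) (Ioi 0) := by
    have := integrableOn_rpow_mul_exp_neg_mul_rpow (s := 1) (p := 1) (b := b) (by norm_num)
      one_pos hb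
    refine this.congr_fun (fun x hx => ?_) measurableSet_Ioi
    simp only [Real.rpow_one, neg_mul]
  have h2 := h1.integrable_indicator measurableSet_Ioi
  refine h2.congr (Eventually.of_forall fun r => ?_)
  by_cases hr : 0 < r
  · simp only [indicator_of_mem (mem_Ioi.2 hr), max_eq_left hr.le]
  · simp only [indicator_of_notMem (show r ∉ Ioi 0 by simpa using hr),
      max_eq_right (not_lt.1 hr), zero_mul]

private lemma pole_lim {b : ℝ} (hb : 0 < b) :
    Tendsto (fun r : ℝ => r * Real.exp (-(b * r))) atTop (𝓝 0) := by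
  have h1 := (Real.tendsto_pow_mul_exp_neg_atTop_nhds_zero 1).comp
    (tendsto_id.const_mul_atTop hb)
  have h2 := h1.const_mul b⁻¹
  rw [mul_zero] at h2
  refine h2.congr fun r => ?_
  simp only [Function.comp_apply, id, pow_one]
  field_simp

private lemma pole_tr {a : ℂ} (ha : 0 < a.re) :
    ∫ r : ℝ, ((max r 0 : ℝ) : ℂ) * Complex.exp (-(a * r)) = 1 / a ^ 2 := by
  have ha0 : a ≠ 0 := fun h => by rw [h] at ha; simp at ha
  have nrm : ∀ r : ℝ, ‖Complex.exp (-(a * r))‖ = Real.exp (-(a.re * r)) := by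
    intro r
    rw [Complex.norm_exp]
    simp
  have e1 : ∫ r : ℝ, ((max r 0 : ℝ) : ℂ) * Complex.exp (-(a * r)) =
      ∫ r in Ioi (0 : ℝ), (r : ℂ) * Complex.exp (-(a * r)) := by
    rw [← integral_indicator measurableSet_Ioi]
    refine integral_congr_ae (Eventually.of_forall fun r => ?_)
    by_cases hr : 0 < r
    · simp only [indicator_of_mem (mem_Ioi.2 hr), max_eq_left hr.le]
    · simp only [indicator_of_notMem (show r ∉ Ioi 0 by simpa using hr),
        max_eq_right (not_lt.1 hr), Complex.ofReal_zero, zero_mul]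
  have hd : ∀ r ∈ Ici (0 : ℝ), HasDerivAt
      (fun r : ℝ => -((r : ℂ) / a + 1 / a ^ 2) * Complex.exp (-(a * r)))
      ((r : ℂ) * Complex.exp (-(a * r))) r := by
    intro r _
    have h0 : HasDerivAt (fun r : ℝ => (r : ℂ)) 1 r := Complex.ofRealCLM.hasDerivAt
    have h1 := ((h0.div_const a).add_const (1 / a ^ 2)).neg
    have h2 := ((h0.const_mul a).neg).cexp
    refine (h1.mul h2).congr_deriv ?_
    simp only [Pi.neg_apply, mul_one]
    field_simp
    ring
  have hi : IntegrableOn (fun r : ℝ => (r : ℂ) * Complex.exp (-(a * r))) (Ioi 0) := by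
    refine Integrable.mono' (pole_int ha).integrableOn (by
      exact (by fun_prop : Continuous fun r : ℝ => (r : ℂ) * Complex.exp (-(a * r))).aestronglyMeasurable) ?_
    refine (ae_restrict_iff' measurableSet_Ioi).2 (Eventually.of_forall fun r hr => ?_)
    rw [norm_mul, nrm, Complex.norm_real, Real.norm_eq_abs, abs_of_pos hr, max_eq_left (le_of_lt hr)]
  have hl : Tendsto (fun r : ℝ => -((r : ℂ) / a + 1 / a ^ 2) * Complex.exp (-(a * r))) atTop
      (𝓝 0) := by
    have h3 : Tendsto (fun r : ℝ => (r * Real.exp (-(a.re * r))) * ‖a‖⁻¹ +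
        ‖1 / a ^ 2‖ * Real.exp (-(a.re * r))) atTop (𝓝 0) := by
      have h4 : Tendsto (fun r : ℝ => Real.exp (-(a.re * r))) atTop (𝓝 0) :=
        Real.tendsto_exp_neg_atTop_nhds_zero.comp (tendsto_id.const_mul_atTop ha)
      have h5 := ((pole_lim ha).mul_const ‖a‖⁻¹).add (h4.const_mul ‖1 / a ^ 2‖)
      rwa [zero_mul, mul_zero, add_zero] at h5
    refine squeeze_zero_norm' ?_ h3
    filter_upwards [eventually_ge_atTop (0 : ℝ)] with r hr
    rw [norm_mul, nrm, norm_neg]
    have h5 : ‖(r : ℂ) / a + 1 / a ^ 2‖ ≤ r * ‖a‖⁻¹ + ‖1 / a ^ 2‖ := by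
      refine (norm_add_le _ _).trans ?_
      rw [norm_div, Complex.norm_real, Real.norm_eq_abs, abs_of_nonneg hr, div_eq_mul_inv]
    have := mul_le_mul_of_nonneg_right h5 (Real.exp_pos (-(a.re * r))).le
    linarith
  rw [e1, integral_Ioi_of_hasDerivAt_of_tendsto' hd hi hl]
  simp

/-- the kernel -/
private noncomputable def kk (r : ℝ) : ℝ := max r 0 * Real.exp (-(1 / 2 * r))

private lemma kk_nn (r : ℝ) : 0 ≤ kk r := mul_nonneg (le_max_right _ _) (Real.exp_pos _).le

private lemma kk_cont : Continuous kk := by unfold kk; fun_prop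

private lemma kk_int : Integrable kk := pole_int (by norm_num)

private lemma kk_int' : Integrable (fun r : ℝ => kk r * Real.exp (r / 4)) := by
  refine (pole_int (b := 1 / 4) (by norm_num)).congr (Eventually.of_forall fun r => ?_)
  simp only [kk]
  rw [mul_assoc, ← Real.exp_add]
  congr 2
  ring

private lemma pole_exp {b : ℝ} (hb : 0 < b) : Integrable (fun v : ℝ => Real.exp (-(b * |v|))) := by
  refine Integrable.mono' ((integrable_inv_one_add_sq.comp_mul_left' hb.ne').const_mul 2)
    (by fun_prop : Continuous fun v : ℝ => Real.exp (-(b * |v|))).aestronglyMeasurable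
    (Eventually.of_forall fun v => ?_)
  have h0 : 0 ≤ b * |v| := mul_nonneg hb.le (abs_nonneg v)
  have h1 := Real.quadratic_le_exp_of_nonneg h0
  have h2 : (b * |v|) ^ 2 = (b * v) ^ 2 := by rw [mul_pow, sq_abs, mul_pow]
  have h3 : 0 < 1 + (b * v) ^ 2 := by positivity
  rw [Real.norm_eq_abs, abs_of_pos (Real.exp_pos _), Real.exp_neg]
  have h4 : (1 + (b * v) ^ 2) / 2 ≤ Real.exp (b * |v|) := by
    rw [← h2]
    linarith
  calc (Real.exp (b * |v|))⁻¹ ≤ ((1 + (b * v) ^ 2) / 2)⁻¹ :=
        inv_anti₀ (by positivity) h4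
    _ = 2 * (1 + (b * v) ^ 2)⁻¹ := by rw [inv_div]; field_simp

theorem conv_pole {s : ℝ → ℂ} (hs : Continuous s) {c : ℝ} (hc : ∀ y, ‖s y‖ ≤ c * Real.exp (-|y|)) {S : ℂ → ℂ}
    (hS : ∀ z : ℂ, |z.re| < 1 → ∫ y : ℝ, Complex.exp (-z * y) * s y = S z) :
    ∃ (h : ℝ → ℂ) (A₀ A₁ : ℂ) (c' : ℝ), Continuous h ∧ (∀ y, ‖h y‖ ≤ c' * Real.exp (-(|y| / 4))) ∧
      (∀ y : ℝ, 0 ≤ y → ‖h y - Complex.exp (-(y / 2)) * (A₀ * y + A₁)‖ ≤ c' * Real.exp (-y)) ∧
      ∀ z : ℂ, |z.re| < 1 / 4 → ∫ y : ℝ, Complex.exp (-z * y) * h y = S z / (1 / 2 + z) ^ 2 := by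
  have hc0 : 0 ≤ c := by
    have := (norm_nonneg _).trans (hc 0)
    simpa using this
  have hsc : ∀ y, ‖s y‖ ≤ c := fun y => (hc y).trans (by
    have : Real.exp (-|y|) ≤ 1 := Real.exp_le_one_iff.2 (by simp)
    nlinarith)
  have hsn : ∀ v : ℝ, ‖(Real.exp (v / 2) : ℂ) * s v‖ ≤ c * Real.exp (-(1 / 2 * |v|)) := by
    intro v
    rw [norm_mul, Complex.norm_real, Real.norm_eq_abs, abs_of_pos (Real.exp_pos _)]
    have h1 := mul_le_mul_of_nonneg_left (hc v) (Real.exp_pos (v / 2)).le
    have h2 : Real.exp (v / 2) * Real.exp (-|v|) ≤ Real.exp (-(1 / 2 * |v|)) := by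
      rw [← Real.exp_add]
      exact Real.exp_le_exp.2 (by linarith [le_abs_self v])
    nlinarith
  have hi0 : Integrable (fun v : ℝ => (Real.exp (v / 2) : ℂ) * s v) :=
    Integrable.mono' ((pole_exp (b := 1 / 2) (by norm_num)).const_mul c)
      (by fun_prop : Continuous fun v : ℝ => (Real.exp (v / 2) : ℂ) * s v).aestronglyMeasurable
      (Eventually.of_forall hsn)
  have hi1 : Integrable (fun v : ℝ => (v : ℂ) * ((Real.exp (v / 2) : ℂ) * s v)) := by
    refine Integrable.mono' ((pole_exp (b := 1 / 4) (by norm_num)).const_mul (4 * c))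
      (by fun_prop : Continuous fun v : ℝ => (v : ℂ) * ((Real.exp (v / 2) : ℂ) * s v)).aestronglyMeasurable
      (Eventually.of_forall fun v => ?_)
    rw [norm_mul, Complex.norm_real, Real.norm_eq_abs]
    have h1 := mul_le_mul_of_nonneg_left (hsn v) (abs_nonneg v)
    have h2 : |v| ≤ 4 * Real.exp (1 / 4 * |v|) := by
      have := Real.add_one_le_exp (1 / 4 * |v|)
      linarith
    have h3 : Real.exp (1 / 4 * |v|) * Real.exp (-(1 / 2 * |v|)) = Real.exp (-(1 / 4 * |v|)) := by
      rw [← Real.exp_add]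
      congr 1
      ring
    have h4 := mul_le_mul_of_nonneg_right h2
      (mul_nonneg hc0 (Real.exp_pos (-(1 / 2 * |v|))).le)
    calc |v| * ‖(Real.exp (v / 2) : ℂ) * s v‖ ≤ |v| * (c * Real.exp (-(1 / 2 * |v|))) := h1
      _ ≤ 4 * Real.exp (1 / 4 * |v|) * (c * Real.exp (-(1 / 2 * |v|))) := h4
      _ = 4 * c * (Real.exp (1 / 4 * |v|) * Real.exp (-(1 / 2 * |v|))) := by ring
      _ = 4 * c * Real.exp (-(1 / 4 * |v|)) := by rw [h3]
  set K1 : ℝ := ∫ r : ℝ, kk r * Real.exp (r / 4) with hK1
  have hK1n : 0 ≤ K1 := integral_nonneg fun r => mul_nonneg (kk_nn r) (Real.exp_pos _).le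
  set K0 : ℝ := ∫ r : ℝ, kk r with hK0
  have hK0n : 0 ≤ K0 := integral_nonneg kk_nn
  refine ⟨fun y => ∫ r : ℝ, (kk r : ℂ) * s (y - r),
    ∫ v : ℝ, (Real.exp (v / 2) : ℂ) * s v, -∫ v : ℝ, (v : ℂ) * ((Real.exp (v / 2) : ℂ) * s v),
    c * K1 + c * K0, ?_, ?_, ?_, ?_⟩
  · refine continuous_of_dominated (bound := fun r => c * kk r) ?_ ?_ (kk_int.const_mul c) ?_
    · intro y
      exact (by
        have := kk_cont
        fun_prop : Continuous fun r : ℝ => (kk r : ℂ) * s (y - r)).aestronglyMeasurable
    · intro y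
      refine Eventually.of_forall fun r => ?_
      rw [norm_mul, Complex.norm_real, Real.norm_eq_abs, abs_of_nonneg (kk_nn r), mul_comm c]
      exact mul_le_mul_of_nonneg_left (hsc _) (kk_nn r)
    · exact Eventually.of_forall fun r => by fun_prop
  · intro y
    have h1 : ‖∫ r : ℝ, (kk r : ℂ) * s (y - r)‖ ≤
        ∫ r : ℝ, c * Real.exp (-(|y| / 4)) * (kk r * Real.exp (r / 4)) := by
      refine norm_integral_le_of_norm_le (kk_int'.const_mul _) (Eventually.of_forall fun r => ?_)
      rw [norm_mul, Complex.norm_real, Real.norm_eq_abs, abs_of_nonneg (kk_nn r)]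
      rcases le_total 0 r with hr | hr
      · have h2 := mul_le_mul_of_nonneg_left (hc (y - r)) (kk_nn r)
        have h3 : Real.exp (-|y - r|) ≤ Real.exp (-(|y| / 4)) * Real.exp (r / 4) := by
          rw [← Real.exp_add]
          refine Real.exp_le_exp.2 ?_
          have h4 : |y| ≤ |y - r| + r := by
            have := abs_add_le (y - r) r
            rw [sub_add_cancel, abs_of_nonneg hr] at this
            exact this
          have := abs_nonneg (y - r)
          linarith
        have h5 := mul_le_mul_of_nonneg_left h3 (mul_nonneg hc0 (kk_nn r))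
        calc kk r * ‖s (y - r)‖ ≤ kk r * (c * Real.exp (-|y - r|)) := h2
          _ = c * kk r * Real.exp (-|y - r|) := by ring
          _ ≤ c * kk r * (Real.exp (-(|y| / 4)) * Real.exp (r / 4)) := h5
          _ = c * Real.exp (-(|y| / 4)) * (kk r * Real.exp (r / 4)) := by ring
      · have h2 : kk r = 0 := by rw [kk, max_eq_right hr, zero_mul]
        rw [h2]
        simp
    rw [integral_const_mul, ← hK1] at h1
    refine h1.trans ?_
    have := mul_nonneg (mul_nonneg hc0 hK0n) (Real.exp_pos (-(|y| / 4))).le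
    linarith
  · intro y hy
    have e1 : ∫ r : ℝ, (kk r : ℂ) * s (y - r) = ∫ v : ℝ, (kk (y - v) : ℂ) * s v := by
      have := integral_sub_left_eq_self (fun v : ℝ => (kk (y - v) : ℂ) * s v) volume y
      simpa using this
    have e2 : ∀ v : ℝ, (kk (y - v) : ℂ) * s v =
        Complex.exp (-(y / 2)) * ((y : ℂ) * ((Real.exp (v / 2) : ℂ) * s v) -
          (v : ℂ) * ((Real.exp (v / 2) : ℂ) * s v)) +
        ((max (v - y) 0 * Real.exp (1 / 2 * (v - y)) : ℝ) : ℂ) * s v := by
      intro v
      have e3 : kk (y - v) = Real.exp (-(y / 2)) * Real.exp (v / 2) * (y - v) +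
          max (v - y) 0 * Real.exp (1 / 2 * (v - y)) := by
        have e4 : max (y - v) 0 = (y - v) + max (v - y) 0 := by
          rcases le_total y v with h | h
          · rw [max_eq_right (by linarith), max_eq_left (by linarith)]
            ring
          · rw [max_eq_left (by linarith), max_eq_right (by linarith)]
            ring
        rw [kk, e4, ← Real.exp_add, add_mul]
        congr 1
        · rw [mul_comm]
          congr 2
          ring
        · congr 2
          ring
      have e5 : (Real.exp (-(y / 2)) : ℂ) = Complex.exp (-(y / 2)) := by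
        push_cast
        rfl
      rw [e3]
      push_cast
      ring
    have hR : ∀ v : ℝ, ‖((max (v - y) 0 * Real.exp (1 / 2 * (v - y)) : ℝ) : ℂ) * s v‖ ≤
        c * Real.exp (-y) * kk (v - y) := by
      intro v
      have h0 : 0 ≤ max (v - y) 0 * Real.exp (1 / 2 * (v - y)) :=
        mul_nonneg (le_max_right _ _) (Real.exp_pos _).le
      rw [norm_mul, Complex.norm_real, Real.norm_eq_abs, abs_of_nonneg h0]
      rcases le_total v y with h | h
      · rw [max_eq_right (by linarith), kk, max_eq_right (by linarith)]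
        simp
      · have h1 := mul_le_mul_of_nonneg_left (hc v) h0
        have e6 : |v| = v := abs_of_nonneg (by linarith)
        rw [e6] at h1
        refine h1.trans (le_of_eq ?_)
        have e7 : Real.exp (1 / 2 * (v - y)) * Real.exp (-v) =
            Real.exp (-y) * Real.exp (-(1 / 2 * (v - y))) := by
          rw [← Real.exp_add, ← Real.exp_add]
          congr 1
          ring
        rw [kk]
        linear_combination (c * max (v - y) 0) * e7
    have hRi : Integrable (fun v : ℝ =>
        ((max (v - y) 0 * Real.exp (1 / 2 * (v - y)) : ℝ) : ℂ) * s v) :=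
      Integrable.mono' ((kk_int.comp_sub_right y).const_mul (c * Real.exp (-y)))
        (by fun_prop : Continuous fun v : ℝ =>
          ((max (v - y) 0 * Real.exp (1 / 2 * (v - y)) : ℝ) : ℂ) * s v).aestronglyMeasurable
        (Eventually.of_forall hR)
    have e8 : ∫ v : ℝ, (kk (y - v) : ℂ) * s v = Complex.exp (-(y / 2)) *
        ((∫ v : ℝ, (Real.exp (v / 2) : ℂ) * s v) * y +
          -∫ v : ℝ, (v : ℂ) * ((Real.exp (v / 2) : ℂ) * s v)) +
        ∫ v : ℝ, ((max (v - y) 0 * Real.exp (1 / 2 * (v - y)) : ℝ) : ℂ) * s v := by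
      have hB : Integrable (fun v : ℝ => (y : ℂ) * ((Real.exp (v / 2) : ℂ) * s v)) :=
        hi0.const_mul (y : ℂ)
      have hA : Integrable (fun v : ℝ => Complex.exp (-(y / 2)) *
          ((y : ℂ) * ((Real.exp (v / 2) : ℂ) * s v) -
            (v : ℂ) * ((Real.exp (v / 2) : ℂ) * s v))) := (hB.sub hi1).const_mul _
      rw [integral_congr_ae (Eventually.of_forall e2), integral_add hA hRi, integral_const_mul,
        integral_sub hB hi1, integral_const_mul]
      ring
    change ‖(∫ r : ℝ, (kk r : ℂ) * s (y - r)) - _‖ ≤ _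
    rw [e1, e8, add_sub_cancel_left]
    have h9 := norm_integral_le_of_norm_le ((kk_int.comp_sub_right y).const_mul
      (c * Real.exp (-y))) (Eventually.of_forall hR)
    rw [integral_const_mul, integral_sub_right_eq_self (fun v => kk v) y, ← hK0] at h9
    refine h9.trans ?_
    have := mul_nonneg (mul_nonneg hc0 hK1n) (Real.exp_pos (-y)).le
    linarith
  · intro z hz
    obtain ⟨z1, z2⟩ := abs_lt.1 hz
    have ha : 0 < (1 / 2 + z).re := by
      simp only [Complex.add_re, Complex.div_re, Complex.one_re, Complex.re_ofNat]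
      norm_num
      linarith
    have hre : (1 / 2 + z).re = 1 / 2 + z.re := by simp
    -- the two functions
    have hf : Integrable (fun r : ℝ => ((max r 0 : ℝ) : ℂ) * Complex.exp (-((1 / 2 + z) * r))) := by
      refine Integrable.mono' (pole_int ha)
        (by fun_prop : Continuous fun r : ℝ =>
          ((max r 0 : ℝ) : ℂ) * Complex.exp (-((1 / 2 + z) * r))).aestronglyMeasurable
        (Eventually.of_forall fun r => ?_)
      rw [norm_mul, Complex.norm_real, Real.norm_eq_abs, abs_of_nonneg (le_max_right _ _),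
        Complex.norm_exp]
      simp
    have hg : Integrable (fun v : ℝ => Complex.exp (-z * v) * s v) := by
      refine Integrable.mono' ((pole_exp (b := 3 / 4) (by norm_num)).const_mul c)
        (by fun_prop : Continuous fun v : ℝ => Complex.exp (-z * v) * s v).aestronglyMeasurable
        (Eventually.of_forall fun v => ?_)
      rw [norm_mul, Complex.norm_exp]
      have h1 := mul_le_mul_of_nonneg_left (hc v) (Real.exp_pos ((-z * v).re)).le
      refine h1.trans ?_
      rw [← mul_assoc, mul_comm _ c, mul_assoc, ← Real.exp_add]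
      refine mul_le_mul_of_nonneg_left (Real.exp_le_exp.2 ?_) hc0
      have h2 : (-z * v).re = -z.re * v := by simp
      rw [h2]
      have h3 : -z.re * v ≤ 1 / 4 * |v| := by
        refine (le_abs_self _).trans ?_
        rw [abs_mul, abs_neg]
        exact mul_le_mul_of_nonneg_right hz.le (abs_nonneg v)
      linarith
    have key := integral_convolution (L := ContinuousLinearMap.mul ℂ ℂ) (μ := volume)
      (ν := volume) hf hg
    rw [pole_tr ha, hS z (by linarith)] at key
    simp only [ContinuousLinearMap.mul_apply'] at key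
    rw [show S z / (1 / 2 + z) ^ 2 = 1 / (1 / 2 + z) ^ 2 * S z by ring, ← key]
    refine integral_congr_ae (Eventually.of_forall fun y => ?_)
    simp only [convolution, ContinuousLinearMap.mul_apply']
    rw [← integral_const_mul]
    refine integral_congr_ae (Eventually.of_forall fun r => ?_)
    simp only [kk]
    push_cast
    have e9 : Complex.exp (-z * y) * Complex.exp (-(1 / 2 * r)) =
        Complex.exp (-((1 / 2 + z) * r)) * Complex.exp (-z * (y - r)) := by
      rw [← Complex.exp_add, ← Complex.exp_add]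
      congr 1
      ring
    linear_combination (((max r 0 : ℝ) : ℂ) * s (y - r)) * e9

end Pool.Agent.QT
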